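import Pool.Agent.Lib_helper59.A1.Stmts
import Pool.Agent.Lib_helper50.A1.Ub2

/-!
# MP_859019_mp, project A1: block BND (the uniform bounds), verbatim statement
-/

set_option autoImplicit false

open scoped BigOperators ComplexOrder Kronecker MatrixOrder
open MeasureTheory Set Matrix

namespace Pool.Agent.A1W

open Pool.Agent.RC Pool.Agent.A1

section

variable {ι κ : Type} [Fintype ι] [DecidableEq ι] [Fintype κ] [DecidableEq κ]

omit [DecidableEq ι] [DecidableEq κ] in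
/-- the Hilbert-Schmidt norms of `Dc` are bounded for `c` in `[-1,1]` -/
theorem bndS_exists_Dc (D₁ : Matrix ι ι ℂ) (R₂ D₂ : Matrix κ κ ℂ) :
    ∃ y : ℝ, 0 ≤ y ∧ ∀ c ∈ Icc (-1 : ℝ) 1,
      (((Dc D₁ R₂ D₂ c)ᴴ * Dc D₁ R₂ D₂ c).trace).re ≤ y := by
  have hY : Continuous fun c : ℝ => Dc D₁ R₂ D₂ c := by
    unfold Dc Wc
    apply continuous_matrix
    rintro ⟨i, j⟩ ⟨i', j'⟩
    simp only [Matrix.kroneckerMap_apply, Matrix.sub_apply, Matrix.smul_apply, smul_eq_mul]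
    fun_prop
  have hT : Continuous fun c : ℝ => (((Dc D₁ R₂ D₂ c)ᴴ * Dc D₁ R₂ D₂ c).trace).re :=
    Complex.continuous_re.comp ((hY.matrix_conjTranspose.mul hY).matrix_trace)
  obtain ⟨y, hy⟩ := isCompact_Icc.exists_bound_of_continuousOn (s := Icc (-1 : ℝ) 1)
    hT.continuousOn
  refine ⟨max y 0, le_max_right _ _, fun c hc => ?_⟩
  have := hy c hc
  rw [Real.norm_eq_abs] at this
  exact (le_abs_self _).trans (this.trans (le_max_left _ _))

end

theorem bnd_stmt : BNDStmt := by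
  intro ι κ _ _ _ _ R₁ D₁ R₂ D₂ h₁ h₂
  obtain ⟨C, hC⟩ := uu_bound h₁ h₂
  obtain ⟨δ, b, hδ, hb, hM⟩ := Mt_bounds h₁ h₂
  obtain ⟨y, hy0, hy⟩ := bndS_exists_Dc D₁ R₂ D₂
  set Cu : ℝ := Real.pi / 2 * Real.sqrt (Fintype.card (ι × κ) * y) with hCu
  set z : ℝ := max ((((D₁ ⊗ₖ R₂)ᴴ * (D₁ ⊗ₖ R₂)).trace).re) 0 with hz
  set Cv : ℝ := Real.pi / 2 * Real.sqrt (Fintype.card (ι × κ) * z) with hCv
  set m : ℝ := min 1 δ with hm
  have hm0 : 0 < m := lt_min one_pos hδ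
  have hCu0 : 0 ≤ Cu := by positivity
  have hCv0 : 0 ≤ Cv := by positivity
  have hBR : (D₁ ⊗ₖ R₂).IsHermitian := herm_kron h₁.herm h₂.posDef.isHermitian
  refine ⟨max (max C Cu) (Cv / m), ?_, ?_⟩
  · exact le_max_of_le_left (le_max_of_le_right hCu0)
  intro c hc e he
  refine ⟨fun t ht => ⟨?_, ?_⟩, ?_⟩
  · obtain ⟨g1, g2⟩ := hC c hc e he t ht
    exact ⟨g1, g2.trans ((le_max_left _ _).trans (le_max_left _ _))⟩
  · obtain ⟨m1, m2⟩ := hM c hc t ht
    obtain ⟨g1, g2⟩ := im_bound h₁ h₂ hδ hc he ht m1 (Dc_herm h₁ h₂ c) (hy c hc) hy0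
    have e1 : (ui R₁ D₁ R₂ D₂ c e t) =
        fun w => -(-((tz R₁ D₁ R₂ D₂ (Dc D₁ R₂ D₂ c) c e t w).im / w)) := by
      funext w
      unfold ui
      ring
    rw [e1]
    refine ⟨g1.neg, ?_⟩
    simp only [abs_neg] at g2 ⊢
    refine g2.trans (le_trans ?_ ((le_max_right _ _).trans (le_max_left _ _)))
    rw [div_le_iff₀ (by positivity)]
    have : 0 ≤ Cu * (e * δ) := by positivity
    linarith
  · have ht0 : (0 : ℝ) ∈ Icc (0 : ℝ) 1 := ⟨le_rfl, zero_le_one⟩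
    obtain ⟨m1, m2⟩ := hM c hc 0 ht0
    obtain ⟨g1, g2⟩ := im_bound h₁ h₂ hδ hc he ht0 m1 hBR (le_max_left _ 0) (le_max_right _ _)
    have e1 : (vv R₁ D₁ R₂ D₂ c e) =
        fun w => -((tz R₁ D₁ R₂ D₂ (D₁ ⊗ₖ R₂) c e 0 w).im / w) := by
      funext w
      unfold vv
      ring
    rw [e1]
    refine ⟨g1, g2.trans ?_⟩
    have h3 : (1 + e) * m ≤ 1 + e * δ := by
      have h4 : m ≤ 1 := min_le_left _ _
      have h5 : e * m ≤ e * δ := mul_le_mul_of_nonneg_left (min_le_right _ _) he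
      nlinarith
    have h6 : Real.pi / 2 * Real.sqrt (Fintype.card (ι × κ) * z) / (1 + e * δ) ≤
        Cv / m / (1 + e) := by
      rw [← hCv, div_div, mul_comm m]
      exact div_le_div_of_nonneg_left hCv0 (by positivity) h3
    refine h6.trans ?_
    exact div_le_div_of_nonneg_right (le_max_right _ _) (by positivity)

end Pool.Agent.A1W
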